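import Pool.Agent.H53.GR.Targets

/-!
MP_6ab439_lc, board gar_modules, row EX: independence of the order `r`.
-/

set_option autoImplicit false

namespace Pool.Agent.H54.GR

open Pool.Agent.H68.BP Pool.Agent.H58.SF Pool.Agent.H53.GC Pool.Agent.H53.NR Pool.Agent.H58.GR
open Pool.Agent.H53.GR

namespace EX

/-- the letter at the position `c`: `false` for the first one -/
def bb (r : Fin 3) (c : Fin 6) : Bool := decide (kS r c ≠ 0)

/-- a position of a letter -/
def cc (r : Fin 3) (s : Bool) : Fin 6 := cond s (![2, 1, 0] r) (![0, 0, 1] r)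

theorem bb_cc (r : Fin 3) (s : Bool) : bb r (cc r s) = s := by
  revert r s
  decide

theorem kS_bb (r : Fin 3) (c : Fin 6) : kS r c = cond (bb r c) 1 0 := by
  revert r c
  decide

theorem pat_bb {Y : Type} (r : Fin 3) (x y : Y) (c : Fin 6) :
    pat r x y c = cond (bb r c) y x := by
  fin_cases r <;> fin_cases c <;> rfl

/-- the shapes, in terms of the letters -/
def kk {k : ℕ} (lb : Fin k → Fin 3) (i : Fin k) (s : Bool) : Fin 6 :=
  if lb i = 1 then cond s 1 0 else 0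

theorem kap_kk {k : ℕ} {lb : Fin k → Fin 3} {i : Fin k} (h : lb i ≠ 0) (r : Fin 3) (c : Fin 6) :
    kap lb r i c = kk lb i (bb r c) := by
  unfold kap kk
  rw [if_neg h]
  by_cases h1 : lb i = 1
  · rw [if_pos h1, if_pos h1, kS_bb]
  · rw [if_neg h1, if_neg h1]

section

variable {τ : Sig} {V : Type} [LinearOrder V] {𝔹 : Str τ V} {k : ℕ}

/-- the conditions which do not depend on `r` -/
def QQ (𝔹 : Str τ V) (lb : Fin k → Fin 3) (e : Finset (Fin k)) (a b : Str τ (Fin k))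
    (x y : Fin k → V) : Prop :=
  (∀ i ∈ e, ∀ j ∈ e, ∀ s t : Bool, cond s (y i) (x i) < cond t (y j) (x j) ↔
    (i < j ∨ (i = j ∧ kk lb i s < kk lb j t))) ∧
  ∀ (l : Fin τ.m) (z : Fin (τ.ar l) → Fin k) (s : Fin (τ.ar l) → Bool), (∀ i, z i ∈ e) →
    (𝔹 l (fun i => cond (s i) (y (z i)) (x (z i))) ↔
      ∃ t : Bool, (∀ i, kk lb (z i) t = kk lb (z i) (s i)) ∧ (cond t b a) l z)

theorem sh_iff {lb : Fin k → Fin 3} {e : Finset (Fin k)} (hlb : ∀ i ∈ e, lb i ≠ 0) (r : Fin 3)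
    (a b : Str τ (Fin k)) (x y : Fin k → V) :
    Sh 𝔹 (kap lb r) e (pat r a b) (fun i => pat r (x i) (y i)) ↔ QQ 𝔹 lb e a b x y := by
  unfold Sh QQ
  simp only [pat_bb]
  constructor
  · rintro ⟨h1, h2⟩
    refine ⟨fun i hi j hj s t => ?_, fun l z s hz => ?_⟩
    · have h := h1 i hi j hj (cc r s) (cc r t)
      rw [kap_kk (hlb i hi), kap_kk (hlb j hj), bb_cc, bb_cc] at h
      exact h
    · have h := h2 l z (fun i => cc r (s i)) hz
      simp only [bb_cc] at h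
      rw [h]
      constructor
      · rintro ⟨d, hd, hw⟩
        refine ⟨bb r d, fun i => ?_, hw⟩
        have h3 := hd i
        rw [kap_kk (hlb _ (hz i)), kap_kk (hlb _ (hz i)), bb_cc] at h3
        exact h3
      · rintro ⟨t, ht, hw⟩
        refine ⟨cc r t, fun i => ?_, ?_⟩
        · rw [kap_kk (hlb _ (hz i)), kap_kk (hlb _ (hz i)), bb_cc, bb_cc]
          exact ht i
        · rw [bb_cc]
          exact hw
  · rintro ⟨h1, h2⟩
    refine ⟨fun i hi j hj c d => ?_, fun l z c hz => ?_⟩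
    · rw [kap_kk (hlb i hi), kap_kk (hlb j hj)]
      exact h1 i hi j hj _ _
    · rw [h2 l z (fun i => bb r (c i)) hz]
      constructor
      · rintro ⟨t, ht, hw⟩
        refine ⟨cc r t, fun i => ?_, ?_⟩
        · rw [kap_kk (hlb _ (hz i)), kap_kk (hlb _ (hz i)), bb_cc]
          exact ht i
        · rw [bb_cc]
          exact hw
      · rintro ⟨d, hd, hw⟩
        refine ⟨bb r d, fun i => ?_, hw⟩
        have h3 := hd i
        rw [kap_kk (hlb _ (hz i)), kap_kk (hlb _ (hz i))] at h3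
        exact h3

theorem sh_congr {κ : Fin k → Fin 6 → Fin 6} {e : Finset (Fin k)} {w : Fin 6 → Str τ (Fin k)}
    {v v' : Fin k → Fin 6 → V} (hv : ∀ i ∈ e, v i = v' i) (h : Sh 𝔹 κ e w v) :
    Sh 𝔹 κ e w v' := by
  refine ⟨fun i hi j hj c d => ?_, fun l z c hz => ?_⟩
  · rw [← hv i hi, ← hv j hj]
    exact h.1 i hi j hj c d
  · have h1 : (fun i => v' (z i) (c i)) = fun i => v (z i) (c i) := by
      funext i
      rw [hv _ (hz i)]
    rw [h1]
    exact h.2 l z c hz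

theorem sh_pat {lb : Fin k → Fin 3} {e : Finset (Fin k)} (hlb : ∀ i ∈ e, lb i ≠ 0) {r : Fin 3}
    {w : Fin 6 → Str τ (Fin k)} {v : Fin k → Fin 6 → V} (h : Sh 𝔹 (kap lb r) e w v) :
    ∀ i ∈ e, v i = pat r (v i (cc r false)) (v i (cc r true)) := by
  intro i hi
  have he : ∀ c d, bb r c = bb r d → v i c = v i d := by
    intro c d hcd
    refine le_antisymm ?_ ?_
    · rw [← not_lt, h.1 i hi i hi, kap_kk (hlb i hi), kap_kk (hlb i hi), hcd]
      simp
    · rw [← not_lt, h.1 i hi i hi, kap_kk (hlb i hi), kap_kk (hlb i hi), hcd]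
      simp
  funext c
  rw [pat_bb]
  cases hc : bb r c with
  | false => exact he _ _ (hc.trans (bb_cc r false).symm)
  | true => exact he _ _ (hc.trans (bb_cc r true).symm)

theorem sh_ex {lb : Fin k → Fin 3} {e : Finset (Fin k)} (hlb : ∀ i ∈ e, lb i ≠ 0) {r : Fin 3}
    {a b : Str τ (Fin k)} {v : Fin k → Fin 6 → V} (h : Sh 𝔹 (kap lb r) e (pat r a b) v) :
    ∃ x y, QQ 𝔹 lb e a b x y ∧ ∀ i ∈ e, v i = pat r (x i) (y i) :=
  ⟨fun i => v i (cc r false), fun i => v i (cc r true),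
    (sh_iff hlb r a b _ _).1 (sh_congr (sh_pat hlb h) h), sh_pat hlb h⟩

theorem same {lb : Fin k → Fin 3} {e : Finset (Fin k)} {a b : Str τ (Fin k)}
    {x y x' y' : Fin k → V} (h : QQ 𝔹 lb e a b x y) (h' : QQ 𝔹 lb e a b x' y') {n : ℕ}
    {z : Fin n → Fin k} (hz : ∀ i, z i ∈ e) :
    SameTp 𝔹 (fun q : Fin n × Fin 6 => pat 0 (x (z q.1)) (y (z q.1)) q.2)
      (fun q => pat 0 (x' (z q.1)) (y' (z q.1)) q.2) := by
  refine ⟨fun p q => ?_, ?_⟩
  · simp only [pat_bb]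
    exact (h.1 _ (hz _) _ (hz _) _ _).trans (h'.1 _ (hz _) _ (hz _) _ _).symm
  · funext l u
    refine propext ?_
    unfold pull
    simp only [pat_bb]
    exact (h.2 l (fun i => z (u i).1) (fun i => bb 0 (u i).2) (fun i => hz _)).trans
      (h'.2 l (fun i => z (u i).1) (fun i => bb 0 (u i).2) (fun i => hz _)).symm

end

end EX

open EX

/-- EX -/
theorem pf_EX : Pool.Agent.H53.GR.T_EX := by
  intro σ τ V _ 𝔸 𝔹 M H hG hT k lb r e hlb a b
  by_cases hex : ∃ x y, QQ 𝔹 lb e.1 a b x y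
  · obtain ⟨x, y, hQ⟩ := hex
    have h1 : ∃ v, Sh 𝔹 (kap lb r) e.1 (pat r a b) v := ⟨_, (sh_iff hlb r a b x y).2 hQ⟩
    have h0 : ∃ v, Sh 𝔹 (kap lb 0) e.1 (pat 0 a b) v := ⟨_, (sh_iff hlb 0 a b x y).2 hQ⟩
    unfold fmK
    rw [dif_pos h1, dif_pos h0]
    obtain ⟨x1, y1, hQ1, e1⟩ := sh_ex hlb h1.choose_spec
    obtain ⟨x0, y0, hQ0, e0⟩ := sh_ex hlb h0.choose_spec
    funext l z
    refine propext (and_congr_right fun hz => ?_)
    unfold pull
    have f1 : (fun i => h1.choose (z i)) = fun i => pat r (x1 (z i)) (y1 (z i)) :=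
      funext fun i => e1 _ (hz i)
    have f0 : (fun i => h0.choose (z i)) = fun i => pat 0 (x0 (z i)) (y0 (z i)) :=
      funext fun i => e0 _ (hz i)
    rw [f1, f0]
    exact (hG.exact r l _ _).trans (hT l _ _ (same hQ1 hQ0 hz))
  · unfold fmK
    rw [dif_neg, dif_neg]
    · rintro ⟨v, hv⟩
      obtain ⟨x, y, hQ, -⟩ := sh_ex hlb hv
      exact hex ⟨x, y, hQ⟩
    · rintro ⟨v, hv⟩
      obtain ⟨x, y, hQ, -⟩ := sh_ex hlb hv
      exact hex ⟨x, y, hQ⟩

end Pool.Agent.H54.GR
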